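import Pool.Agent.Helper73.GR.Defs

namespace Pool.Agent.Helper73.GR

open Finset
open scoped Classical

variable {V E : Type} [Fintype V]

/-- PIECE B1a. For a loopless set the edges leaving `{v}` are the edges at `v`. -/
theorem d_single (ends : E → Sym2 V) (H : Finset E) (hl : ∀ e ∈ H, ¬ (ends e).IsDiag) (v : V) :
    d ends H {v} = #(H.filter fun e => v ∈ ends e) := by
  sorry

/-- PIECE B1b. Count pairs (vertex of `U`, edge at it): an edge leaving `U` is counted once, an edge inside `U` twice
(loopless), other edges never. -/
theorem sum_d (ends : E → Sym2 V) (H : Finset E) (hl : ∀ e ∈ H, ¬ (ends e).IsDiag)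
    (U : Finset V) : ∑ v ∈ U, d ends H {v} = d ends H U + 2 * #(ins ends H U) := by
  sorry

/-- PIECE B1c. The case of cubic vertices. -/
theorem card3 (ends : E → Sym2 V) (H : Finset E) (hl : ∀ e ∈ H, ¬ (ends e).IsDiag)
    (U : Finset V) (h3 : ∀ v ∈ U, d ends H {v} = 3) :
    3 * #U = d ends H U + 2 * #(ins ends H U) := by
  sorry

/-- PIECE B1d. For disjoint `A`, `B` (no hypothesis on loops): an edge between `A` and `B` leaves both and does
not leave the union, all other edges leave the union iff they leave exactly one of them. -/
theorem d_union (ends : E → Sym2 V) (H : Finset E) (A B : Finset V) (hAB : Disjoint A B) :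
    d ends H (A ∪ B) + 2 * #(eb ends H A B) = d ends H A + d ends H B := by
  sorry

/-- PIECE B1e. Submodularity: edge by edge. -/
theorem d_submod (ends : E → Sym2 V) (H : Finset E) (A B : Finset V) :
    d ends H (A ∩ B) + d ends H (A ∪ B) ≤ d ends H A + d ends H B := by
  sorry

/-- PIECE B1f. Posimodularity: edge by edge. -/
theorem d_posimod (ends : E → Sym2 V) (H : Finset E) (A B : Finset V) :
    d ends H (A \ B) + d ends H (B \ A) ≤ d ends H A + d ends H B := by
  sorry

end Pool.Agent.Helper73.GR
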