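import Pool.Agent.Helper73.GR.B1

namespace Pool.Agent.Helper73.GR

open Finset
open scoped Classical

variable {V E : Type} [Fintype V]

/-- PIECE B2a. The parity of the number of edges of `X` leaving `U` is the sum over `v ∈ U` of the parities of
`d ends X {v}` (an edge inside `U` is counted twice or, if it is a loop, never). -/
theorem Ev.cut {ends : E → Sym2 V} {X : Finset E} (h : Ev ends X) (U : Finset V) :
    Even (d ends X U) := by
  sorry

/-- PIECE B2b. -/
theorem Ev.sdiff {ends : E → Sym2 V} {X Y : Finset E} (hX : Ev ends X) (hY : Ev ends Y)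
    (hYX : Y ⊆ X) : Ev ends (X \ Y) := by
  sorry

/-- PIECE B2c. At a vertex with three edges of `H` a set `X ⊆ H` which is even has 0 or 2 edges. -/
theorem ev_two {ends : E → Sym2 V} {H X : Finset E} (hl : ∀ e ∈ H, ¬ (ends e).IsDiag)
    (hXH : X ⊆ H) (hX : Ev ends X) {v : V} (h3 : d ends H {v} = 3) (hv : v ∈ vs ends X) :
    d ends X {v} = 2 := by
  sorry

/-- PIECE B2d. `#J ≥ #U` edges with all ends in `U` contain a nonempty even set: linear algebra over
`ZMod 2` (or pigeonhole): choose `v0 ∈ U` and map a subset `Z ⊆ J` to the parities of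
`d ends Z {v}` for `v ∈ U \ {v0}`; `2 ^ #J > 2 ^ (#U - 1)`, so two different subsets `Z1`, `Z2` have the same image and their
symmetric difference `Z` has even `d ends Z {v}` for all `v ∈ U`, `v ≠ v0`, hence also for `v0` (the sum over
all `v ∈ U` of `d ends Z {v}` is twice the number of edges of `Z`, as `Z` is loopless) and for `v ∉ U`
(then it is 0). -/
theorem exists_even (ends : E → Sym2 V) (J : Finset E) (U : Finset V)
    (hl : ∀ e ∈ J, ¬ (ends e).IsDiag) (hJ : ∀ e ∈ J, In ends U e) (hU : U.Nonempty)
    (hc : #U ≤ #J) : ∃ Z ⊆ J, Z.Nonempty ∧ Ev ends Z := by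
  sorry

end Pool.Agent.Helper73.GR
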