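import Pool.Agent.Helper73.GR.B1

namespace Pool.Agent.Helper73.GR

open Finset
open scoped Classical

variable {V E : Type} [Fintype V]

/-- PIECE C1. Nontrivial 3-cuts contain a deletable edge. Let `U` be inclusion-minimal (minimal cardinality) with `U ⊆ U0`, `2 ≤ #U`, `U ≠ U0`,
`d U = 3` (all `d` are for `ends H`). `#U` is odd (`card3`), so `≥ 3`. By `h1` at most one `M`-edge meets `U` and by `hC.lonely` none is
inside `U` (if `m` is inside, another one meets `U`, contradicting `h1`). So at most one vertex `c ∈ U` is on an `M`-edge, and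
this edge leaves `U`, so at most two edges of `ins U` are at `c`; `#(ins U) = (3 #U - 3)/2 ≥ 3`, so there is `g = t1 t2` in
`ins U` not at `c`; `t1`, `t2` are plain. Claim: `Del g t1 t2`. Parity: `d W` and `#W` have the same parity for `W ⊆ U0` (`card3`).
Let `W ⊆ U0` with `g ∈ dl W`; by symmetry (rename `t1`, `t2`) `t1 ∈ W`, `t2 ∉ W`.
c3: suppose `2 ≤ #W`, `d W ≤ 3`, so `d W = 3`. `U ∩ W ∋ t1`, `U ∪ W` have `d ≥ 3`, so `= 3` by submodularity. If `W ⊆ U` then `W ≠ U` contradicts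
minimality of `U`. Otherwise `U \ W ∋ t2` and `W \ U` are nonempty and have `d = 3` by posimodularity. By minimality `#(U ∩ W) = 1 = #(U \ W)`,
so `#U = 2`, contradicting parity.
c4: suppose `W` is thin with `M`-edge `m`; `#W` is even, `≥ 4`. `m` is not inside `U`, so `W \ U` is nonempty.
Case `#(U ∩ W)` odd: `#(U \ W)` even `≥ 2`, `d ≥ 4`; `#(W \ U)` odd, `d ≥ 3`; the sum is `≤ 7`, so `d (W \ U) = 3`. `#(U ∪ W)` is even, so
`d (U ∪ W) ≥ 4` and `d (U ∩ W) = 3`, so `U ∩ W = {t1}` by minimality, `#(W \ U) ≥ 3`. By `h1` and `hC.lonely` for `W \ U` (`≠ U0`) no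
`M`-edge is inside `W \ U`; so `m` has the end `t1`, but `t1` is plain.
Case `#(U ∩ W)` even: `d (U ∩ W) ≥ 4`, so `d (U ∪ W) = 3`; `#(U \ W)` is odd; `#(W \ U)` even `≥ 2`, `d (W \ U) ≥ 4`, so `d (U \ W) = 3` and
by minimality `U \ W = {t2}`. `m` is inside `U ∪ W`; if `U ∪ W ≠ U0` this contradicts `h1` and `hC.lonely`. If `U ∪ W = U0`: by
`hC.two` there is `m' ∈ M`, `m' ≠ m`; it meets `U0` (`hC.meet`) and not `W` (thin), so it has the end `t2`, but `t2` is plain. -/
theorem exists_del_of_cut {ends : E → Sym2 V} {H : Finset E} {U0 : Finset V} {M : Finset E}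
    (hC : Cls ends H U0 M)
    (h1 : ∀ U ⊆ U0, 2 ≤ #U → U ≠ U0 → d ends H U = 3 → ∀ m ∈ M, ∀ m' ∈ M, Mt ends U m →
      Mt ends U m' → m = m')
    (h2 : ∃ U ⊆ U0, 2 ≤ #U ∧ U ≠ U0 ∧ d ends H U = 3) :
    ∃ g u v, Del ends H U0 M g u v := by
  sorry

end Pool.Agent.Helper73.GR
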