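import Pool.Agent.Helper73.GR.B1

namespace Pool.Agent.Helper73.GR

open Finset
open scoped Classical

variable {V E : Type} [Fintype V]

/-- PIECE C2. Thin sets contain a deletable edge. `h1`: no nontrivial 3-cuts. Let `T` be a thin set of minimal cardinality, `m` its `M`-edge, `ends m = s(a,b)`,
`a, b ∈ T`, `a ≠ b` (loopless). Parity (`card3`): `d W`, `#W` have the same parity for `W ⊆ U0`; `#T` is even, `≥ 4`, `2 #(ins T) = 3 #T - 4`. All vertices of
`T` other than `a`, `b` are plain. Claim: some `g = t1 t2 ∈ ins T` is not at `a` or `b`. At most `3 + 3 - 1` edges of `ins T` are at `a` or `b` (`m` is at both);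
if `#T ≥ 6` then `#(ins T) ≥ 7`. If `#T = 4`, `T = {a,b,c,e}`, `#(ins T) = 4`: if all four are at `a` or `b`: `m` and three edges between `{a,b}` and `{c,e}`
(an edge inside `{a,b}` other than `m` would give `d {a,b} ≤ 2`), so one of `c`, `e`, say `c`, has two of them, one to `a` and one to `b` (two to the same vertex:
`d ≤ 2`), and `d {a,b,c} ≤ 9 - 6 = 3`, contradicting `h1` (`{a,b,c} ≠ U0` as `e ∈ U0`).
`g` is deletable: let `W ⊆ U0`, `g ∈ dl W`, by symmetry `t1 ∈ W`, `t2 ∉ W`. c3 is `h1` (`W ≠ U0`). c4: let `W` be thin with `M`-edge `m'`.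
If `m' = m`: `a, b, t1 ∈ T ∩ W`, so `#(T ∩ W) ≥ 3`; `T ∩ W` is smaller than `T` (`t2`), `d (T ∩ W) ≥ 4` by `h1`, and `= 4` would make `T ∩ W` thin;
so `d (T ∩ W) ≥ 5`, `d (T ∪ W) ≤ 3` (submodularity), so `T ∪ W = U0` by `h1`; then all `M`-edges meet `T` or `W` (`hC.meet`), so all are `= m`, contradicting `hC.two`.
If `m' ≠ m`: `m` does not meet `W`, so `a, b, t2 ∈ T \ W`, `#(T \ W) ≥ 3`, `T \ W` is smaller than `T` (`t1`), as before `d (T \ W) ≥ 5`, so
`d (W \ T) ≤ 3` (posimodularity); `m'` does not meet `T` (else `m' = m`), so its two ends are in `W \ T`, `#(W \ T) ≥ 2`, contradicting `h1`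
(`W \ T ≠ U0`). -/
theorem exists_del_of_thin {ends : E → Sym2 V} {H : Finset E} {U0 : Finset V} {M : Finset E}
    (hC : Cls ends H U0 M)
    (h1 : ∀ U ⊆ U0, 2 ≤ #U → U ≠ U0 → 4 ≤ d ends H U)
    (h2 : ∃ W m, Thin ends H U0 M W m) :
    ∃ g u v, Del ends H U0 M g u v := by
  sorry

end Pool.Agent.Helper73.GR
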