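import Pool.Agent.Helper73.GR.L1

namespace Pool.Agent.Helper73.GR

open Finset
open scoped Classical

variable {V E : Type} [Fintype V]

/-- PIECE D1a. The other two edges at `u`. `u` is on exactly three edges of `H` (`d_single`). Let `f`, `h` be the two different
from `g`, `x`, `y` their other ends (`≠ u`, loopless). Two edges between `u` and a vertex `w ∈ U0` are impossible:
`d {u,w} ≤ 3 + 3 - 4 < 3` (`d_union`). So `x, y ≠ v`, and `x ≠ y` if `x ∈ U0`. At most one of `x`, `y` is outside `U0`: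
otherwise `d (U0 \ {u}) = 3 - 2 + 1 < 3` (by `d_union` with `{u}`: the only edge between `u` and `U0 \ {u}` is `g`), but
`v ∈ U0 \ {u}`. Name them so that `x ∈ U0`. -/
theorem nbrs {ends : E → Sym2 V} {H : Finset E} {U0 : Finset V} {M : Finset E}
    (hC : Cls ends H U0 M) {g : E} {u v : V} (hg : g ∈ H) (he : ends g = s(u, v))
    (hu : u ∈ U0) (hv : v ∈ U0) :
    ∃ f h x y, f ∈ H ∧ h ∈ H ∧ f ≠ h ∧ f ≠ g ∧ h ≠ g ∧ ends f = s(u, x) ∧ ends h = s(u, y) ∧
      x ∈ U0 ∧ x ≠ y ∧ x ≠ u ∧ y ≠ u ∧ x ≠ v ∧ y ≠ v ∧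
      ∀ e ∈ H, u ∈ ends e → e = f ∨ e = h ∨ e = g := by
  sorry

/-- PIECE D1b. The smoothing of `H \ {g}` at `u` and `v`: apply `nbrs` at `u` (edge `g`) and at `v` (edge `g`, with
`ends g = s(v,u)`), `Z = {u,v}`, `φ u`, `φ v` the neighbours `x` in `U0`, `φ` the identity elsewhere. -/
theorem exists_Sm {ends : E → Sym2 V} {H : Finset E} {U0 : Finset V} {M : Finset E}
    (hC : Cls ends H U0 M) {g : E} {u v : V} (hg : g ∈ H) (he : ends g = s(u, v))
    (hu : u ∈ U0) (hv : v ∈ U0) :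
    ∃ ends' H' f h φ ψ, Sm ends ends' (H.erase g) H' {u, v} f h φ ψ ∧
      φ u ∈ U0 \ {u, v} ∧ φ v ∈ U0 \ {u, v} := by
  sorry

end Pool.Agent.Helper73.GR
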