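import Pool.Agent.Helper73.GR.D1

namespace Pool.Agent.Helper73.GR

open Finset
open scoped Classical

variable {V E : Type} [Fintype V]

/-- PIECE D2. The class is kept. For `W' ⊆ U0 \ {u,v}` put `W = pb φ W'` (`W' ⊆ W ⊆ W' ∪ {u,v}`, `W ⊆ U0`); by `Sm.dl_eq`
`d ends' H' W' = d ends (H.erase g) W`, which is `d ends H W - 1` if `g ∈ dl ends H W` and `d ends H W` otherwise.
* loop: `Sm.loop'`.
* cut: if `g` leaves `W` then `#W ≥ 2` and `hD.c3` gives `d ends H W ≥ 4`; otherwise `hC.cut`.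
* deg, `W' = {w}`: `≥ 3` by the previous point; `≤ 3`: `W = {w}`: `g` does not leave it, 3. `W = {w, u}` (`φ u = w`):
  `d ends H W = 6 - 2 #eb ≤ 4` because `f u` joins them, and `g` leaves `W`. Same for `{w, v}`. `W = {w,u,v}`:
  `card3`: `9 = d + 2 #ins`, the edges `f u`, `f v`, `g` are inside (pairwise different), so `d ≤ 3`.
* root: `pb φ (U0 \ {u,v}) = U0`, `g` is inside.
* sub, meet, mat, two: `u`, `v` are on no `M`-edge, so `g, f u, f v ∉ M` and `ends' m = ends m` for `m ∈ M`.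
* lonely: `W' ⊆ U0 \ {u,v}`, `#W' ≥ 2`, `d' W' = 3`, `m ∈ M` inside `W'`. If `g` does not leave `W`: `hC.lonely` for `W`. If `g` leaves `W`:
  `d ends H W = 4`, `#W ≥ 3`, so by `hD.c4` some other `m' ∈ M` meets `W`. In both cases `m'` meets `W'` as it avoids `u`, `v`. -/
theorem del_cls {ends ends' : E → Sym2 V} {H H' : Finset E} {U0 : Finset V} {M : Finset E}
    (hC : Cls ends H U0 M) {g : E} {u v : V} (hD : Del ends H U0 M g u v) {f h : V → E}
    {φ ψ : V → V} (S : Sm ends ends' (H.erase g) H' {u, v} f h φ ψ)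
    (h1 : φ u ∈ U0 \ {u, v}) (h2 : φ v ∈ U0 \ {u, v}) : Cls ends' H' (U0 \ {u, v}) M := by
  sorry

end Pool.Agent.Helper73.GR
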