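import Pool.Agent.Helper73.GR.D1

namespace Pool.Agent.Helper73.GR

open Finset
open scoped Classical

variable {V E : Type} [Fintype V]

/-- PIECE D3. Good circuits lift: `lift {u,v} f h X` is good. sub: `X ⊆ H' ⊆ H.erase g`. inn: an edge of `X` has its ends in
`U0 \ {u,v}` for `ends'`; for `ends` its ends are these or `u`, `v`. even, conn: `Sm.even`, `Sm.conn`. For `m ∈ M`: `m` is
not `f u`, `f v` (plain), so `m ∈ lift ↔ m ∈ X`; `ends' m = ends m`. touch: the vertex found is not in `{u,v}`, use `Sm.vs_out`.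
reach: `w ∈ ends' m = ends m`, `w ∉ {u,v}`, `w ∉ vs ends (lift)` by `Sm.vs_out`; for `T ⊆ U0 \ vs ends (lift)` with `w ∈ T` apply
the hypothesis to `T \ {u,v} ⊆ (U0 \ {u,v}) \ vs ends' X` and then `Sm.reach`. -/
theorem del_good {ends ends' : E → Sym2 V} {H H' : Finset E} {U0 : Finset V} {M : Finset E}
    (hC : Cls ends H U0 M) {g : E} {u v : V} (hD : Del ends H U0 M g u v) {f h : V → E}
    {φ ψ : V → V} (S : Sm ends ends' (H.erase g) H' {u, v} f h φ ψ)
    (h1 : φ u ∈ U0 \ {u, v}) (h2 : φ v ∈ U0 \ {u, v}) {X : Finset E}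
    (hX : Good ends' H' (U0 \ {u, v}) M X) : Good ends H U0 M (lift {u, v} f h X) := by
  sorry

end Pool.Agent.Helper73.GR
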