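import Mathlib

/-!
Graph part of MP_7cf8d2_co (captain helper73): the rooted graph lemma (Theorem R).
Fixed finite types `V`, `E`. A graph is `ends : E → Sym2 V` together with a finite set `H` of
active edges. The root is everything outside `U0 : Finset V`.
-/

namespace Pool.Agent.Helper73.GR

open Finset
open scoped Classical

variable {V E : Type} [Fintype V]

/-- the edge `e` leaves `U` -/
def Cr (ends : E → Sym2 V) (U : Finset V) (e : E) : Prop :=
  (∃ a ∈ U, a ∈ ends e) ∧ ∃ b, b ∉ U ∧ b ∈ ends e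

/-- the edges of `H` leaving `U` -/
noncomputable def dl (ends : E → Sym2 V) (H : Finset E) (U : Finset V) : Finset E :=
  H.filter fun e => Cr ends U e

/-- the number of edges of `H` leaving `U` -/
noncomputable def d (ends : E → Sym2 V) (H : Finset E) (U : Finset V) : ℕ := #(dl ends H U)

/-- the edges of `H` with all ends in `U` -/
noncomputable def ins (ends : E → Sym2 V) (H : Finset E) (U : Finset V) : Finset E :=
  H.filter fun e => ∀ v ∈ ends e, v ∈ U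

/-- the edges of `H` between `A` and `B` -/
noncomputable def eb (ends : E → Sym2 V) (H : Finset E) (A B : Finset V) : Finset E :=
  H.filter fun e => (∃ a ∈ A, a ∈ ends e) ∧ ∃ b ∈ B, b ∈ ends e

/-- even edge sets (elements of the cycle space; loops are ignored) -/
def Ev (ends : E → Sym2 V) (X : Finset E) : Prop := ∀ v, Even (d ends X {v})

/-- the vertices of an edge set -/
noncomputable def vs (ends : E → Sym2 V) (X : Finset E) : Finset V :=
  univ.filter fun v => ∃ e ∈ X, v ∈ ends e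

/-- `v` is on no edge of `M` -/
def Pl (ends : E → Sym2 V) (M : Finset E) (v : V) : Prop := ∀ m ∈ M, v ∉ ends m

/-- the edge `m` meets the vertex set `U` -/
def Mt (ends : E → Sym2 V) (U : Finset V) (m : E) : Prop := ∃ v ∈ U, v ∈ ends m

/-- the edge `m` lies inside `U` -/
def In (ends : E → Sym2 V) (U : Finset V) (m : E) : Prop := ∀ v ∈ ends m, v ∈ U

/-- the class of rooted graphs of Theorem R -/
structure Cls (ends : E → Sym2 V) (H : Finset E) (U0 : Finset V) (M : Finset E) : Prop where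
  loop : ∀ e ∈ H, ¬ (ends e).IsDiag
  deg : ∀ v ∈ U0, d ends H {v} = 3
  cut : ∀ U ⊆ U0, U.Nonempty → 3 ≤ d ends H U
  root : d ends H U0 = 3
  sub : M ⊆ H
  meet : ∀ m ∈ M, Mt ends U0 m
  mat : ∀ v ∈ U0, ∀ m ∈ M, ∀ m' ∈ M, v ∈ ends m → v ∈ ends m' → m = m'
  two : ∃ m ∈ M, ∃ m' ∈ M, m ≠ m'
  lonely : ∀ U ⊆ U0, 2 ≤ #U → d ends H U = 3 → ∀ m ∈ M, In ends U m →
    ∃ m' ∈ M, m' ≠ m ∧ Mt ends U m'

/-- good circuits -/
structure Good (ends : E → Sym2 V) (H : Finset E) (U0 : Finset V) (M : Finset E)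
    (X : Finset E) : Prop where
  sub : X ⊆ H
  inn : ∀ e ∈ X, In ends U0 e
  ne : X.Nonempty
  even : Ev ends X
  conn : ∀ Y ⊆ X, Y.Nonempty → Ev ends Y → Y = X
  one : ∀ m ∈ M, ∀ m' ∈ M, m ∈ X → m' ∈ X → m = m'
  touch : ∃ m ∈ M, ∃ m' ∈ M, m ≠ m' ∧ Mt ends (vs ends X) m ∧ Mt ends (vs ends X) m'
  reach : ∀ m ∈ M, m ∉ X → ∃ w ∈ ends m, w ∉ vs ends X ∧
    ∀ T ⊆ U0 \ vs ends X, w ∈ T →
      ∃ e ∈ H, (∃ a ∈ T, a ∈ ends e) ∧ ∃ b, b ∉ T ∧ b ∉ vs ends X ∧ b ∈ ends e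

/-- `W` is a thin set with `M`-edge `m` -/
structure Thin (ends : E → Sym2 V) (H : Finset E) (U0 : Finset V) (M : Finset E)
    (W : Finset V) (m : E) : Prop where
  sub : W ⊆ U0
  four : d ends H W = 4
  three : 3 ≤ #W
  mem : m ∈ M
  inn : In ends W m
  only : ∀ m' ∈ M, Mt ends W m' → m' = m

/-- the edge `g = uv` can be deleted -/
structure Del (ends : E → Sym2 V) (H : Finset E) (U0 : Finset V) (M : Finset E)
    (g : E) (u v : V) : Prop where
  mem : g ∈ H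
  eq : ends g = s(u, v)
  hu : u ∈ U0
  hv : v ∈ U0
  pu : Pl ends M u
  pv : Pl ends M v
  c3 : ∀ W ⊆ U0, 2 ≤ #W → g ∈ dl ends H W → 4 ≤ d ends H W
  c4 : ∀ W m, g ∈ dl ends H W → ¬ Thin ends H U0 M W m

theorem mem_dl {ends : E → Sym2 V} {H : Finset E} {U : Finset V} {e : E} :
    e ∈ dl ends H U ↔ e ∈ H ∧ Cr ends U e := by
  unfold dl; rw [mem_filter]

theorem mem_ins {ends : E → Sym2 V} {H : Finset E} {U : Finset V} {e : E} :
    e ∈ ins ends H U ↔ e ∈ H ∧ ∀ v ∈ ends e, v ∈ U := by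
  unfold ins; rw [mem_filter]

theorem mem_eb {ends : E → Sym2 V} {H : Finset E} {A B : Finset V} {e : E} :
    e ∈ eb ends H A B ↔ e ∈ H ∧ (∃ a ∈ A, a ∈ ends e) ∧ ∃ b ∈ B, b ∈ ends e := by
  unfold eb; rw [mem_filter]

theorem mem_vs {ends : E → Sym2 V} {X : Finset E} {v : V} :
    v ∈ vs ends X ↔ ∃ e ∈ X, v ∈ ends e := by
  unfold vs; rw [mem_filter]; exact ⟨fun h => h.2, fun h => ⟨mem_univ _, h⟩⟩

/-- every edge has two ends -/
theorem ex_ends (ends : E → Sym2 V) (e : E) : ∃ a b, ends e = s(a, b) := by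
  generalize ends e = p
  induction p with
  | _ a b => exact ⟨a, b, rfl⟩

theorem Cr_mk {ends : E → Sym2 V} {U : Finset V} {e : E} {a b : V} (h : ends e = s(a, b)) :
    Cr ends U e ↔ (a ∈ U ∧ b ∉ U) ∨ (a ∉ U ∧ b ∈ U) := by
  unfold Cr
  rw [h]
  simp only [Sym2.mem_iff]
  constructor
  · rintro ⟨⟨x, hx, rfl | rfl⟩, y, hy, rfl | rfl⟩
    · exact absurd hx hy
    · exact Or.inl ⟨hx, hy⟩
    · exact Or.inr ⟨hy, hx⟩
    · exact absurd hx hy
  · rintro (⟨h1, h2⟩ | ⟨h1, h2⟩)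
    · exact ⟨⟨a, h1, Or.inl rfl⟩, b, h2, Or.inr rfl⟩
    · exact ⟨⟨b, h2, Or.inr rfl⟩, a, h1, Or.inl rfl⟩

end Pool.Agent.Helper73.GR
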