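import Pool.Agent.Helper73.GR.B1

namespace Pool.Agent.Helper73.GR

open Finset
open scoped Classical

variable {V E : Type} [Fintype V]

/-- `(ends', H')` arises from `(ends, H)` by smoothing the vertices `z ∈ Z` of degree two: the edge `f z = z (φ z)` is
contracted (deleted, and `z` is mapped to `φ z`), the other edge is `h z = z (ψ z)`. -/
structure Sm (ends ends' : E → Sym2 V) (H H' : Finset E) (Z : Finset V) (f h : V → E)
    (φ ψ : V → V) : Prop where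
  loop : ∀ e ∈ H, ¬ (ends e).IsDiag
  hH' : H' = H \ Z.image f
  ends' : ∀ e, ends' e = (ends e).map φ
  id : ∀ v, v ∉ Z → φ v = v
  fmem : ∀ z ∈ Z, f z ∈ H
  hmem : ∀ z ∈ Z, h z ∈ H
  fne : ∀ z ∈ Z, f z ≠ h z
  feq : ∀ z ∈ Z, ends (f z) = s(z, φ z)
  heq : ∀ z ∈ Z, ends (h z) = s(z, ψ z)
  phi : ∀ z ∈ Z, φ z ∉ Z
  psi : ∀ z ∈ Z, ψ z ∉ Z
  ne : ∀ z ∈ Z, φ z ≠ ψ z
  two : ∀ z ∈ Z, ∀ e ∈ H, z ∈ ends e → e = f z ∨ e = h z

/-- the preimage of a vertex set -/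
noncomputable def pb (φ : V → V) (W : Finset V) : Finset V := univ.filter fun v => φ v ∈ W

/-- the lifted edge set -/
noncomputable def lift (Z : Finset V) (f h : V → E) (X : Finset E) : Finset E :=
  X ∪ (Z.filter fun z => h z ∈ X).image f

variable {ends ends' : E → Sym2 V} {H H' : Finset E} {Z : Finset V} {f h : V → E} {φ ψ : V → V}

/-- PIECE L1a. If `e ∈ H'` has ends `a`, `b` and `φ a = φ b`: if one of them, say `a`, is in `Z`, then `e = h a`,
`b = ψ a ∉ Z`, `φ b = ψ a ≠ φ a`. -/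
theorem Sm.loop' (S : Sm ends ends' H H' Z f h φ ψ) : ∀ e ∈ H', ¬ (ends' e).IsDiag := by
  sorry

/-- PIECE L1b. An edge crosses `W` for `ends'` iff it crosses `pb φ W` for `ends`; the edges `f z` never cross `pb φ W`, as
`φ (φ z) = φ z`. -/
theorem Sm.dl_eq (S : Sm ends ends' H H' Z f h φ ψ) (W : Finset V) :
    dl ends' H' W = dl ends H (pb φ W) := by
  sorry

/-- PIECE L1c. no end of an edge for `ends'` is in `Z` -/
theorem Sm.notMem (S : Sm ends ends' H H' Z f h φ ψ) (e : E) (v : V) (hv : v ∈ ends' e) :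
    v ∉ Z := by
  sorry

/-- PIECE L1d. -/
theorem Sm.vs_out (S : Sm ends ends' H H' Z f h φ ψ) {X : Finset E} (hX : X ⊆ H') {v : V}
    (hv : v ∉ Z) : v ∈ vs ends (lift Z f h X) ↔ v ∈ vs ends' X := by
  sorry

/-- PIECE L1e. -/
theorem Sm.vs_in (S : Sm ends ends' H H' Z f h φ ψ) {X : Finset E} (hX : X ⊆ H') {z : V}
    (hz : z ∈ Z) : z ∈ vs ends (lift Z f h X) ↔ h z ∈ X := by
  sorry

/-- PIECE L1f. At `z ∈ Z` the lifted set has the edges `f z`, `h z` or none of them. For `v ∉ Z`: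
`{e ∈ X : v ∈ ends' e} = {e ∈ X : v ∈ ends e} ∪ {h z : z ∈ Z, φ z = v, h z ∈ X}` (disjoint, `ψ z ≠ φ z`) and
`{e ∈ lift X : v ∈ ends e} = {e ∈ X : v ∈ ends e} ∪ {f z : z ∈ Z, φ z = v, h z ∈ X}` (disjoint); `f`, `h` are injective on `Z`. -/
theorem Sm.even (S : Sm ends ends' H H' Z f h φ ψ) {X : Finset E} (hX : X ⊆ H')
    (he : Ev ends' X) : Ev ends (lift Z f h X) := by
  sorry

/-- PIECE L1g. Let `Y ⊆ lift X` be nonempty and even for `ends`. `Y ∩ H'` is even for `ends'` (for a vertex set `W`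
the edges of `Y ∩ H'` leaving `W` for `ends'` are the edges of `Y` leaving `pb φ W`), nonempty (a set of edges `f z` alone is not
even at `z`), so equal to `X`; for `z ∈ Z` with `h z ∈ X` parity at `z` gives `f z ∈ Y`. -/
theorem Sm.conn (S : Sm ends ends' H H' Z f h φ ψ) {X : Finset E} (hX : X ⊆ H')
    (hc : ∀ Y ⊆ X, Y.Nonempty → Ev ends' Y → Y = X) :
    ∀ Y ⊆ lift Z f h X, Y.Nonempty → Ev ends Y → Y = lift Z f h X := by
  sorry

/-- PIECE L1h. Let `e ∈ H'` be given, `a ∈ T \ Z`, `b` its ends for `ends'` (`b ∉ Z` by `Sm.notMem`, so `b ∉ T`). If no end of `e`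
(for `ends`) is in `Z` take `e`. Otherwise `e = h z` with `z ∈ Z`, `{a,b} = {φ z, ψ z}`, and `h z ∉ X` (otherwise
`b ∈ vs ends' X`), so `z ∉ vs ends (lift X)`: if `z ∈ T` take the edge of `z` to `b`, if `z ∉ T` take the edge of `a` to `z`
(these are `f z` and `h z` in some order). -/
theorem Sm.reach (S : Sm ends ends' H H' Z f h φ ψ) {X : Finset E} (hX : X ⊆ H')
    {T : Finset V} (hr : ∃ e ∈ H', (∃ a ∈ T \ Z, a ∈ ends' e) ∧
      ∃ b, b ∉ T \ Z ∧ b ∉ vs ends' X ∧ b ∈ ends' e) :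
    ∃ e ∈ H, (∃ a ∈ T, a ∈ ends e) ∧ ∃ b, b ∉ T ∧ b ∉ vs ends (lift Z f h X) ∧ b ∈ ends e := by
  sorry

end Pool.Agent.Helper73.GR
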