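import Pool.Agent.Helper73.GR.B1

namespace Pool.Agent.Helper73.GR

open Finset
open scoped Classical

variable {V E : Type} [Fintype V]

/-- PIECE R1a. Otherwise all edges leaving `T` end in `U`: then `#(eb T U) = d T ≥ 3` and `d_union` for the disjoint sets
`T`, `U` gives `d (T ∪ U) = d U - d T = 0`, contradicting `hC.cut`. -/
theorem out_edge {ends : E → Sym2 V} {H : Finset E} {U0 : Finset V} {M : Finset E}
    (hC : Cls ends H U0 M) {U : Finset V} (hU : U ⊆ U0) (hd : d ends H U = 3)
    {T : Finset V} (hT : T ⊆ U0 \ U) (hne : T.Nonempty) :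
    ∃ e ∈ H, (∃ a ∈ T, a ∈ ends e) ∧ ∃ b, b ∉ T ∧ b ∉ U ∧ b ∈ ends e := by
  sorry

/-- PIECE R1b. Root enlargement keeps the class. -/
theorem root_cls {ends : E → Sym2 V} {H : Finset E} {U0 : Finset V} {M : Finset E}
    (hC : Cls ends H U0 M) {U : Finset V} (hU : U ⊆ U0) (hd : d ends H U = 3)
    (h2 : ∃ m ∈ M, ∃ m' ∈ M, m ≠ m' ∧ Mt ends U m ∧ Mt ends U m') :
    Cls ends H U (M.filter fun m => Mt ends U m) := by
  sorry

/-- PIECE R1c. Good circuits for the enlarged root are good. reach: let `m ∈ M`, `m ∉ X`. If `m` meets `U` take `w` from `hX.reach`,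
otherwise any end `w` of `m` in `U0` (`hC.meet`), it is not in `U`, and `vs ends X ⊆ U`. Let `w ∈ T ⊆ U0 \ vs ends X`. If `T ∩ U ∋ w` then
`hX.reach` for `T ∩ U` gives an edge from `T ∩ U` to `b ∉ T ∩ U`, `b ∉ vs ends X`; if `b ∉ T` done, otherwise `T \ U` is nonempty.
If `T \ U` is nonempty use `out_edge` for `T \ U`: its end `b` is not in `U` (so not in `vs ends X`) and not in `T`. -/
theorem root_good {ends : E → Sym2 V} {H : Finset E} {U0 : Finset V} {M : Finset E}
    (hC : Cls ends H U0 M) {U : Finset V} (hU : U ⊆ U0) (hd : d ends H U = 3) {X : Finset E}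
    (hX : Good ends H U (M.filter fun m => Mt ends U m) X) : Good ends H U0 M X := by
  sorry

end Pool.Agent.Helper73.GR
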