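import Pool.Agent.Helper73.GR.B2

namespace Pool.Agent.Helper73.GR

open Finset
open scoped Classical

variable {V E : Type} [Fintype V]

/-- PIECE X1. `h1`: no nontrivial 3-cuts, `h2`: no edge of `H` inside `U0` joins two plain vertices. Claim: two different `M`-edges meet `vs Z`.
Suppose not: there are no two different `M`-edges meeting `vs Z`. Every edge of `Z` has an end on an `M`-edge (`h2`), `Z ≠ ∅`, so there is `m ∈ M` meeting `vs Z`, it is the only one, and every edge
of `Z` is at one of the ends `p`, `q` of `m` (`p ≠ q`). At every vertex of `vs Z` the set `Z` has exactly two edges (`ev_two`), so `#Z = #(vs Z)`. Two vertices of `U0` are never joined by two edges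
(`d {x,y} ≤ 6 - 4 < 3`, `d_union`), so `#Z ≥ 3`.
If only one of `p`, `q` is in `vs Z` then `#Z ≤ 2`. So `p, q ∈ vs Z ⊆ U0`. If an edge of `Z` joins `p` and `q` then `#Z ≤ 3`, `vs Z = {p,q,x}`, `Z` consists of edges
`pq`, `px`, `qx`, so `d (vs Z) ≤ 9 - 6 = 3` (`card3`), by `h1` `vs Z = U0`; but then two different `M`-edges meet `vs Z` (`hC.two`, `hC.meet`).
Otherwise `#Z = 4`, `vs Z = {p,q,x,y}`, the edges are `px, qx, py, qy` (each of `x`, `y` has two edges of `Z`, going to `p` or `q`, not both to the same one), and `m = pq`: `m`,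
`px`, `qx` are inside `{p,q,x}`, so `d {p,q,x} ≤ 3`, contradicting `h1` (`y ∉ {p,q,x}`). -/
theorem touch_of_even {ends : E → Sym2 V} {H : Finset E} {U0 : Finset V} {M : Finset E}
    (hC : Cls ends H U0 M)
    (h1 : ∀ U ⊆ U0, 2 ≤ #U → U ≠ U0 → 4 ≤ d ends H U)
    (h2 : ∀ g ∈ H, ∀ u ∈ U0, ∀ v ∈ U0, ends g = s(u, v) → Pl ends M u → Pl ends M v → False)
    {Z : Finset E} (hZ : Z ⊆ H) (hi : ∀ e ∈ Z, In ends U0 e) (hne : Z.Nonempty)
    (he : Ev ends Z) :
    ∃ m ∈ M, ∃ m' ∈ M, m ≠ m' ∧ Mt ends (vs ends Z) m ∧ Mt ends (vs ends Z) m' := by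
  sorry

end Pool.Agent.Helper73.GR
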