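import Pool.Agent.Helper73.GR.B2

namespace Pool.Agent.Helper73.GR

open Finset
open scoped Classical

variable {V E : Type} [Fintype V]

/-- PIECE X2. There is a nonempty even set inside `U0` with at most one `M`-edge. `n = #U0`, `3 n = 3 + 2 #(ins U0)` (`card3`, `hC.root`), so `n` is odd and
`#(ins U0) = (3n-3)/2`. `n ≠ 1` (all `M`-edges meet `U0`, by `hC.mat` there would be only one), so `n ≥ 3`. Let `MI` = the `M`-edges inside `U0`: two ends each, all
different by `hC.mat`, so `2 #MI ≤ n`, i.e. `#MI ≤ (n-1)/2`. If `MI = ∅` let `J = ins U0`, otherwise choose `m0 ∈ MI` and let `J = ins U0 \ (MI.erase m0)`. In both cases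
`#J ≥ n`; apply `exists_even` with `U = U0`. -/
theorem exists_start {ends : E → Sym2 V} {H : Finset E} {U0 : Finset V} {M : Finset E}
    (hC : Cls ends H U0 M) :
    ∃ Z ⊆ H, (∀ e ∈ Z, In ends U0 e) ∧ Z.Nonempty ∧ Ev ends Z ∧
      ∀ m ∈ M, ∀ m' ∈ M, m ∈ Z → m' ∈ Z → m = m' := by
  sorry

end Pool.Agent.Helper73.GR
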