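import Pool.Agent.Helper73.GR.B2

namespace Pool.Agent.Helper73.GR

open Finset
open scoped Classical

variable {V E : Type} [Fintype V]

/-- the sets `S` used in the extremal argument: everything outside `S` is connected to the root outside `S`, and `S` contains
a nonempty even set with at most one `M`-edge -/
structure Ex (ends : E → Sym2 V) (H : Finset E) (U0 : Finset V) (M : Finset E)
    (S : Finset V) : Prop where
  sub : S ⊆ U0
  reach : ∀ T ⊆ U0 \ S, T.Nonempty →
    ∃ e ∈ H, (∃ a ∈ T, a ∈ ends e) ∧ ∃ b, b ∉ T ∧ b ∉ S ∧ b ∈ ends e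
  ex : ∃ Z ⊆ H, (∀ e ∈ Z, In ends S e) ∧ Z.Nonempty ∧ Ev ends Z ∧
    ∀ m ∈ M, ∀ m' ∈ M, m ∈ Z → m' ∈ Z → m = m'

/-- PIECE X3a. If `S` has minimal cardinality then every nonempty even set inside `S` with at most one `M`-edge contains every foot of `S`
(vertex of `S` with an edge leaving `S`): otherwise `S.erase φ` is also in `Ex` (for `T ⊆ U0 \ S.erase φ` nonempty: if `φ ∉ T` use `hS.reach`, note that `b ∉ S`
implies `b ∉ S.erase φ`; if `φ ∈ T`, the foot edge goes from `φ` to `b ∉ S`; if `b ∉ T` take it; otherwise `T.erase φ` is nonempty, and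
`hS.reach` for it gives an edge to `b' ∉ T.erase φ`, `b' ∉ S`, so `b' ≠ φ`, `b' ∉ T`). -/
theorem foot_mem {ends : E → Sym2 V} {H : Finset E} {U0 : Finset V} {M : Finset E}
    {S : Finset V} (hS : Ex ends H U0 M S) (hmin : ∀ S', Ex ends H U0 M S' → #S ≤ #S')
    {p : V} (hp : p ∈ S) {e0 : E} (he0 : e0 ∈ H) (hpe : p ∈ ends e0) {b : V} (hb : b ∉ S)
    (hbe : b ∈ ends e0) {Z : Finset E} (hZ : Z ⊆ H) (hi : ∀ e ∈ Z, In ends S e)
    (hne : Z.Nonempty) (hev : Ev ends Z)
    (h1 : ∀ m ∈ M, ∀ m' ∈ M, m ∈ Z → m' ∈ Z → m = m') : p ∈ vs ends Z := by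
  sorry

/-- PIECE X3b (the extremal argument). Let `S` be as above, `F = ins S` (edges of `H` inside `S`), `J = F \ M`, `MS = F ∩ M`. A foot has exactly two edges in `F`
(it is on a nonempty even set inside `S` by `foot_mem`, two edges by `ev_two`, and one edge leaves `S`); a vertex of `S` which is not a foot has three edges in `F`. There is a foot
(`d S ≥ 3`, `hC.cut`); at most one edge of `MS` is at a vertex (`hC.mat`).
CASE 1: `J` contains a nonempty even set `Z0`. Every foot `p` is in `vs Z0`, both its edges in `F` are in `Z0 ⊆ J`. So every vertex of `S` has `≥ 2` edges in `J`; hence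
`2 #J ≥ 2 #S`. Fix a foot `p`; `J` minus the two edges at `p` has no nonempty even subset (it would miss `p`, `foot_mem`), so by `exists_even` for the vertex set `S \ {p}`
(nonempty, since `Z0` is a nonempty loopless even set) `#J - 2 < #S - 1`. So `#J = #S` and every vertex of `S` has exactly two edges in `J`: `J` is even. `J \ Z0` is even, misses `p`, so it is empty:
`Z0 = J`. `MS = ∅`: if `m ∈ MS` then `m` is not at `p`, and `exists_even` for `(J minus the edges at p) ∪ {m}` (`#S - 2 + 1` edges) and `S \ {p}` gives a nonempty even set with at most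
one `M`-edge missing `p`. Take `X = J = F`. conn: if `Y ⊂ X` is nonempty, even and proper then `Y` and `X \ Y` both contain `p`, but `p` has two edges in `X`.
CASE 2: `J` contains no nonempty even set; so `#J < #S` (`exists_even`), and the even set `Z` of `hS.ex` contains exactly one `M`-edge `e0 ∈ MS`. Every foot is in `vs Z`, so its two edges in `F` are
in `Z`; so if it is on an edge of `MS` this edge is `e0`. Let `a` = number of feet, `c = 2 #MS` = number of vertices on `MS`, `D` = number of vertices which are both; `D ≤ 2`, `a + c - D ≤ #S`.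
Counting degrees in `J`: `2 #J = 3 #S - a - c ≤ 2 #S - 2`, so `a + c ≥ #S + 2`, `D = 2`, the ends `x`, `y` of `e0` are feet, every vertex of `S` is a foot or on `MS`,
`#J = #S - 1`. If `m ∈ MS`, `m ≠ e0`: `x` has exactly one edge in `J` and `m` is not at `x`; `exists_even` for `(J minus the edge at x) ∪ {m}` (`#S - 2 + 1` edges) and `S \ {x}` gives
a nonempty even set with at most one `M`-edge missing the foot `x`: contradiction. So `MS = {e0}`, `X = F = J ∪ {e0}`, every vertex of `S` has exactly two edges in `X`.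
conn: if `Y ⊂ X` nonempty, even, proper: `Y` and `X \ Y` both contain `x`, which has two edges in `X`.
In both cases `X = F`, `vs X = S`, every vertex of `S` has two edges in `X`; `M`-edges not in `X` are not inside `S`, so they have an end `w ∉ S` and `hS.reach` gives the reach property. -/
theorem extremal {ends : E → Sym2 V} {H : Finset E} {U0 : Finset V} {M : Finset E}
    (hC : Cls ends H U0 M) {S : Finset V} (hS : Ex ends H U0 M S)
    (hmin : ∀ S', Ex ends H U0 M S' → #S ≤ #S') :
    ∃ X ⊆ H, (∀ e ∈ X, In ends U0 e) ∧ X.Nonempty ∧ Ev ends X ∧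
      (∀ Y ⊆ X, Y.Nonempty → Ev ends Y → Y = X) ∧
      (∀ m ∈ M, ∀ m' ∈ M, m ∈ X → m' ∈ X → m = m') ∧
      ∀ m ∈ M, m ∉ X → ∃ w ∈ ends m, w ∉ vs ends X ∧
        ∀ T ⊆ U0 \ vs ends X, w ∈ T →
          ∃ e ∈ H, (∃ a ∈ T, a ∈ ends e) ∧ ∃ b, b ∉ T ∧ b ∉ vs ends X ∧ b ∈ ends e := by
  sorry

end Pool.Agent.Helper73.GR
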