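import Pool.Agent.Helper73.GR.R1
import Pool.Agent.Helper73.GR.C1
import Pool.Agent.Helper73.GR.C2
import Pool.Agent.Helper73.GR.D2
import Pool.Agent.Helper73.GR.D3
import Pool.Agent.Helper73.GR.X1
import Pool.Agent.Helper73.GR.X2
import Pool.Agent.Helper73.GR.X3

namespace Pool.Agent.Helper73.GR

open Finset
open scoped Classical

variable {V E : Type} [Fintype V]

theorem del_step {ends : E → Sym2 V} {H : Finset E} {U0 : Finset V} {M : Finset E}
    (hC : Cls ends H U0 M) (h : ∃ g u v, Del ends H U0 M g u v) :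
    ∃ (ends' : E → Sym2 V) (H' : Finset E) (U' : Finset V), #U' < #U0 ∧ Cls ends' H' U' M ∧
      ∀ X, Good ends' H' U' M X → ∃ Y, Good ends H U0 M Y := by
  obtain ⟨g, u, v, hD⟩ := h
  obtain ⟨ends', H', f, h, φ, ψ, S, h1, h2⟩ := exists_Sm hC hD.mem hD.eq hD.hu hD.hv
  refine ⟨ends', H', U0 \ {u, v}, ?_, del_cls hC hD S h1 h2, fun X hX => ⟨_, del_good hC hD S h1 h2 hX⟩⟩
  apply card_lt_card
  rw [ssubset_iff_of_subset sdiff_subset]
  exact ⟨u, hD.hu, by simp⟩

/-- THEOREM R -/
theorem thmR : ∀ (n : ℕ) (ends : E → Sym2 V) (H : Finset E) (U0 : Finset V) (M : Finset E),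
    #U0 = n → Cls ends H U0 M → ∃ X, Good ends H U0 M X := by
  intro n
  induction n using Nat.strong_induction_on with
  | _ n ih =>
    intro ends H U0 M hn hC
    by_cases hA : ∃ U ⊆ U0, U ≠ U0 ∧ d ends H U = 3 ∧
        ∃ m ∈ M, ∃ m' ∈ M, m ≠ m' ∧ Mt ends U m ∧ Mt ends U m'
    · obtain ⟨U, hU, hne, hd, h2⟩ := hA
      have hlt : #U < n := by
        rw [← hn]
        exact card_lt_card (hU.ssubset_of_ne hne)
      obtain ⟨X, hX⟩ := ih _ hlt ends H U _ rfl (root_cls hC hU hd h2)
      exact ⟨X, root_good hC hU hd hX⟩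
    · have hstep : (∃ g u v, Del ends H U0 M g u v) → ∃ X, Good ends H U0 M X := by
        intro h
        obtain ⟨ends', H', U', hlt, hC', hl⟩ := del_step hC h
        obtain ⟨X, hX⟩ := ih _ (hn ▸ hlt) ends' H' U' M rfl hC'
        exact hl X hX
      by_cases hB : ∃ U ⊆ U0, 2 ≤ #U ∧ U ≠ U0 ∧ d ends H U = 3
      · apply hstep
        refine exists_del_of_cut hC ?_ hB
        intro U hU _ hne hd m hm m' hm' h1 h2
        by_contra hmm
        exact hA ⟨U, hU, hne, hd, m, hm, m', hm', hmm, h1, h2⟩
      · have h1 : ∀ U ⊆ U0, 2 ≤ #U → U ≠ U0 → 4 ≤ d ends H U := by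
          intro U hU h2 hne
          by_contra hlt
          have h3 : 3 ≤ d ends H U := hC.cut U hU (card_pos.mp (by omega))
          exact hB ⟨U, hU, h2, hne, by omega⟩
        by_cases hT : ∃ W m, Thin ends H U0 M W m
        · exact hstep (exists_del_of_thin hC h1 hT)
        · by_cases hF : ∃ g ∈ H, ∃ u ∈ U0, ∃ v ∈ U0, ends g = s(u, v) ∧ Pl ends M u ∧ Pl ends M v
          · obtain ⟨g, hg, u, hu, v, hv, he, pu, pv⟩ := hF
            apply hstep
            refine ⟨g, u, v, hg, he, hu, hv, pu, pv, ?_, ?_⟩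
            · intro W hW h2 hgW
              refine h1 W hW h2 ?_
              rintro rfl
              rw [mem_dl, Cr_mk he] at hgW
              rcases hgW.2 with h | h
              · exact h.2 hv
              · exact h.1 hu
            · intro W m _ hth
              exact hT ⟨W, m, hth⟩
          · have h2 : ∀ g ∈ H, ∀ u ∈ U0, ∀ v ∈ U0, ends g = s(u, v) → Pl ends M u →
                Pl ends M v → False := by
              intro g hg u hu v hv he pu pv
              exact hF ⟨g, hg, u, hu, v, hv, he, pu, pv⟩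
            have hex : ∃ S, Ex ends H U0 M S := by
              refine ⟨U0, Subset.rfl, ?_, ?_⟩
              · intro T hT hne
                obtain ⟨x, hx⟩ := hne
                have hx' := mem_sdiff.mp (hT hx)
                exact absurd hx'.1 hx'.2
              · exact exists_start hC
            obtain ⟨S, hS, hmin⟩ : ∃ S, Ex ends H U0 M S ∧ ∀ S', Ex ends H U0 M S' → #S ≤ #S' := by
              have := exists_min_image (univ.filter fun S => Ex ends H U0 M S) (fun S => #S)
                (by obtain ⟨S, hS⟩ := hex; exact ⟨S, by simp [hS]⟩)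
              obtain ⟨S, hS, hm⟩ := this
              rw [mem_filter] at hS
              exact ⟨S, hS.2, fun S' h' => hm S' (by simp [h'])⟩
            obtain ⟨X, hXH, hXi, hne, hev, hconn, hone, hreach⟩ := extremal hC hS hmin
            exact ⟨X, hXH, hXi, hne, hev, hconn, hone,
              touch_of_even hC h1 h2 hXH hXi hne hev, hreach⟩

end Pool.Agent.Helper73.GR
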